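import Mathlib

namespace Pool.Agent.Results.MP_361790_al.NoAdo

/-- anticommutative products satisfying the CD identity -/
def CD {V : Type} [AddCommGroup V] (m : V → V → V) : Prop :=
  (∀ x, m x x = 0) ∧ ∀ x y a b, m (m (m x y) a) b - m (m (m x y) b) a - m (m (m x a) b) y
    + m (m (m x b) a) y + m (m (m y a) b) x - m (m (m y b) a) x = 0

theorem result (K : Type) [Field K] (h2 : (2 : K) ≠ 0) :
    ∃ (n : ℕ) (μ : (Fin n → K) →ₗ[K] (Fin n → K) →ₗ[K] (Fin n → K)), CD (fun x y => μ x y) ∧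
      ∀ (M : Type) [AddCommGroup M] [Module K M] (ρ : (Fin n → K) →ₗ[K] M →ₗ[K] M),
        CD (fun p q : (Fin n → K) × M => (μ p.1 q.1, ρ p.1 q.2 - ρ q.1 p.2)) →
          ∃ a, a ≠ 0 ∧ ∀ v, ρ a v = 0 := by
  let μ : (Fin 5 → K) →ₗ[K] (Fin 5 → K) →ₗ[K] (Fin 5 → K) := LinearMap.mk₂ K
    (fun x y => ![0, 0, 0, x 0 * y 1 - x 1 * y 0, x 3 * y 2 - x 2 * y 3])
    (by intros; ext i; fin_cases i <;> simp <;> ring) (by intros; ext i; fin_cases i <;> simp <;> ring)
    (by intros; ext i; fin_cases i <;> simp <;> ring) (by intros; ext i; fin_cases i <;> simp <;> ring)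
  have hμ : ∀ x y, μ x y = ![0, 0, 0, x 0 * y 1 - x 1 * y 0, x 3 * y 2 - x 2 * y 3] :=
    fun _ _ => rfl
  refine ⟨5, μ, ⟨fun x => ?_, fun x y a b => ?_⟩, fun M _ _ ρ h => ⟨![0, 0, 0, 0, 1], ?_, fun v => ?_⟩⟩
  · ext i; fin_cases i <;> simp [hμ] <;> ring
  · ext i; fin_cases i <;> simp [hμ]
  · intro h; simpa using congrFun h 4
  · let a : Fin 5 → K := ![1, 0, 0, 0, 0]
    let b : Fin 5 → K := ![0, 1, 0, 0, 0]
    let c : Fin 5 → K := ![0, 0, 1, 0, 0]
    let p : Fin 5 → K := ![0, 0, 0, 1, 0]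
    have e : ∀ x y z : Fin 5 → K, x 0 * y 1 - x 1 * y 0 = z 3 → x 3 * y 2 - x 2 * y 3 = z 4 →
        z 0 = 0 → z 1 = 0 → z 2 = 0 → μ x y = z := fun x y z h1 h2 h3 h4 h5 => by
      ext i; fin_cases i <;> simp [hμ, *]
    have ab : μ a b = p := by apply e <;> simp [a, b, p]
    have ba : μ b a = -p := by apply e <;> simp [a, b, p]
    have ac : μ a c = 0 := by apply e <;> simp [a, c]
    have ca : μ c a = 0 := by apply e <;> simp [a, c]
    have bc : μ b c = 0 := by apply e <;> simp [b, c]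
    have cb : μ c b = 0 := by apply e <;> simp [b, c]
    have pc : μ p c = ![0, 0, 0, 0, 1] := by apply e <;> simp [p, c]
    have h3 := congrArg Prod.snd (h.2 (a, 0) (0, v) (b, 0) (c, 0))
    have h4 := congrArg Prod.snd (h.2 (b, 0) (0, v) (a, 0) (c, 0))
    have h5 := congrArg Prod.snd (h.2 (c, 0) (0, v) (a, 0) (b, 0))
    simp only [ab, ba, ac, ca, bc, cb, pc, map_zero, map_neg, LinearMap.zero_apply,
      LinearMap.neg_apply, Prod.snd_sub, Prod.snd_add, Prod.snd_zero] at h3 h4 h5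
    apply smul_right_injective M h2
    simp only [smul_zero, map_sub, map_zero] at *
    linear_combination (norm := module) - h3 + h4 - h5

end Pool.Agent.Results.MP_361790_al.NoAdo
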